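import Pool.Agent.Q178.PG.RoseFaces

/-!
# The three classes, and path connectedness of the unordered configuration spaces
-/

open Set Topology

namespace Q178.PG

/-- A drawing of a graph with image `L '' S`. -/
def Drawn (S : Set ℂ) : Prop := ∃ p : Σ G : FGraph, DegEmb G, img p = L '' S

theorem drawn_A (n : ℕ) (hn : 0 < n) : Drawn (circA n) := by
  obtain ⟨φ, hφ⟩ := exists_drawing ⟨1, n, fun _ => 0, fun _ => 0⟩ (fun _ => rfl) (fun _ => 0)
    (fun e => ((e : ℕ) : ℂ) + 1) (fun e => -(((e : ℕ) : ℂ) + 1))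
    (fun a b _ => Subsingleton.elim (α := Fin 1) a b)
    (fun e => neg_ne_zero.2 (Nat.cast_add_one_ne_zero _))
    (fun e => (add_neg_cancel _).symm) (fun e v _ => Subsingleton.elim (α := Fin 1) _ _) (by
      intro e f z hef he hf
      have h1 : ∀ m : ℕ, ‖z - ((m : ℂ) + 1)‖ = ‖-((m : ℂ) + 1)‖ →
          Complex.normSq z = 2 * ((m : ℝ) + 1) * z.re := by
        intro m hm
        have h2 := norm_sub_sq z ((m : ℝ) + 1)
        have h3 : ‖-((m : ℂ) + 1)‖ = (m : ℝ) + 1 := by
          rw [norm_neg, ← Nat.cast_add_one, Complex.norm_natCast]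
          push_cast
          rfl
        push_cast at h2
        rw [hm, h3] at h2
        linarith
      have h2 := h1 _ he
      have h3 := h1 _ hf
      have h4 : (((e : ℕ) : ℝ) - ((f : ℕ) : ℝ)) * z.re = 0 := by linarith
      rcases mul_eq_zero.1 h4 with h5 | h5
      · exact absurd (Fin.ext (by exact_mod_cast sub_eq_zero.1 h5)) hef
      · rw [h5, mul_zero] at h2
        exact Complex.normSq_eq_zero.1 h2)
  refine ⟨⟨_, φ⟩, ?_⟩
  show range φ.1 = _
  rw [hφ]
  congr 1
  have hnorm : ∀ e : Fin n, ‖-(((e : ℕ) : ℂ) + 1)‖ = ((e : ℕ) : ℝ) + 1 := by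
    intro e
    rw [norm_neg, ← Nat.cast_add_one, Complex.norm_natCast]
    push_cast
    rfl
  ext z
  constructor
  · rintro (⟨v, rfl⟩ | hz)
    · refine ⟨0, hn, ?_⟩
      norm_num
    · obtain ⟨e, he⟩ := mem_iUnion.1 hz
      rw [mem_sphere_iff_norm, hnorm] at he
      exact ⟨e, e.2, he⟩
  · rintro ⟨k, hk, hz⟩
    refine Or.inr (mem_iUnion.2 ⟨⟨k, hk⟩, ?_⟩)
    rw [mem_sphere_iff_norm, hnorm]
    exact hz

theorem drawn_B (n : ℕ) : Drawn (circB n) := by
  obtain ⟨φ, hφ⟩ := exists_drawing ⟨n + 1, n, Fin.succ, Fin.succ⟩ (fun _ => rfl)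
    (fun v => ((v : ℕ) : ℂ)) (fun _ => 0) (fun e => (((e : ℕ) + 1 : ℕ) : ℂ))
    (fun a b h => Fin.ext (Nat.cast_injective h)) (fun e => Nat.cast_ne_zero.2 (Nat.succ_ne_zero _))
    (fun e => by simp) (by
      intro e v h
      rw [sub_zero, Complex.norm_natCast, Complex.norm_natCast] at h
      have h' : (v : ℕ) = (e : ℕ) + 1 := by exact_mod_cast h
      exact Fin.ext (by simpa using h')) (by
      intro e f z hef he hf
      rw [Complex.norm_natCast] at he hf
      have h1 : (((e : ℕ) + 1 : ℕ) : ℝ) = (((f : ℕ) + 1 : ℕ) : ℝ) := he.symm.trans hf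
      have h2 : (e : ℕ) + 1 = (f : ℕ) + 1 := by exact_mod_cast h1
      exact absurd (Fin.ext (Nat.succ_injective h2)) hef)
  refine ⟨⟨_, φ⟩, ?_⟩
  show range φ.1 = _
  rw [hφ]
  congr 1
  ext z
  constructor
  · rintro (⟨v, rfl⟩ | hz)
    · exact ⟨v, Nat.le_of_lt_succ v.2, Complex.norm_natCast _⟩
    · obtain ⟨e, he⟩ := mem_iUnion.1 hz
      rw [mem_sphere_iff_norm, Complex.norm_natCast, sub_zero] at he
      exact ⟨_, e.2, he⟩
  · rintro ⟨k, hk, hz⟩
    rcases Nat.eq_zero_or_pos k with rfl | hpos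
    · left
      refine ⟨⟨0, Nat.succ_pos n⟩, ?_⟩
      rw [Nat.cast_zero, norm_eq_zero] at hz
      show (((0 : ℕ)) : ℂ) = z
      rw [hz, Nat.cast_zero]
    · obtain ⟨m, rfl⟩ := Nat.exists_eq_succ_of_ne_zero hpos.ne'
      refine Or.inr (mem_iUnion.2 ⟨⟨m, hk⟩, ?_⟩)
      rw [mem_sphere_iff_norm, Complex.norm_natCast, sub_zero]
      exact hz

theorem drawn_C (n : ℕ) : Drawn (circC n) := by
  obtain ⟨φ, hφ⟩ := exists_drawing ⟨n, n, id, id⟩ (fun _ => rfl)
    (fun v => (((v : ℕ) + 1 : ℕ) : ℂ)) (fun _ => 0) (fun e => (((e : ℕ) + 1 : ℕ) : ℂ))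
    (fun a b h => Fin.ext (Nat.succ_injective (Nat.cast_injective h)))
    (fun e => Nat.cast_ne_zero.2 (Nat.succ_ne_zero _))
    (fun e => by simp) (by
      intro e v h
      rw [sub_zero, Complex.norm_natCast, Complex.norm_natCast] at h
      have h' : (v : ℕ) + 1 = (e : ℕ) + 1 := by exact_mod_cast h
      exact Fin.ext (Nat.succ_injective h')) (by
      intro e f z hef he hf
      rw [Complex.norm_natCast] at he hf
      have h1 : (((e : ℕ) + 1 : ℕ) : ℝ) = (((f : ℕ) + 1 : ℕ) : ℝ) := he.symm.trans hf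
      have h2 : (e : ℕ) + 1 = (f : ℕ) + 1 := by exact_mod_cast h1
      exact absurd (Fin.ext (Nat.succ_injective h2)) hef)
  refine ⟨⟨_, φ⟩, ?_⟩
  show range φ.1 = _
  rw [hφ]
  congr 1
  ext z
  constructor
  · rintro (⟨v, rfl⟩ | hz)
    · exact ⟨(v : ℕ) + 1, Nat.succ_pos _, v.2, Complex.norm_natCast _⟩
    · obtain ⟨e, he⟩ := mem_iUnion.1 hz
      rw [mem_sphere_iff_norm, Complex.norm_natCast, sub_zero] at he
      exact ⟨_, Nat.succ_pos _, e.2, he⟩
  · rintro ⟨k, hpos, hk, hz⟩
    obtain ⟨m, rfl⟩ := Nat.exists_eq_succ_of_ne_zero (Nat.pos_iff_ne_zero.1 hpos)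
    refine Or.inr (mem_iUnion.2 ⟨⟨m, hk⟩, ?_⟩)
    rw [mem_sphere_iff_norm, Complex.norm_natCast, sub_zero]
    exact hz

/-! ### Connectedness of the images -/

theorem conn_A (n : ℕ) (hn : 0 < n) : IsConnected (circA n) := by
  have h1 : circA n = ⋃ k : Fin n, Metric.sphere (((k : ℕ) : ℂ) + 1) (((k : ℕ) : ℝ) + 1) := by
    ext z
    rw [mem_iUnion]
    constructor
    · rintro ⟨k, hk, hz⟩
      exact ⟨⟨k, hk⟩, mem_sphere_iff_norm.2 hz⟩
    · rintro ⟨k, hk⟩
      exact ⟨k, k.2, mem_sphere_iff_norm.1 hk⟩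
  have h0 : ∀ k : Fin n, (0 : ℂ) ∈ Metric.sphere (((k : ℕ) : ℂ) + 1) (((k : ℕ) : ℝ) + 1) := by
    intro k
    rw [mem_sphere_iff_norm, zero_sub, norm_neg, ← Nat.cast_add_one, Complex.norm_natCast]
    push_cast
    rfl
  refine ⟨⟨0, ?_⟩, ?_⟩
  · rw [h1]
    exact mem_iUnion.2 ⟨⟨0, hn⟩, h0 _⟩
  · rw [h1]
    exact isPreconnected_iUnion ⟨0, mem_iInter.2 h0⟩ fun k =>
      isPreconnected_sphere (by rw [Complex.rank_real_complex]; norm_num) _ _

theorem not_conn_of_norm {S : Set ℂ} {x y : ℂ} (hx : x ∈ S) (hy : y ∈ S) {r : ℝ} (hxr : ‖x‖ ≤ r)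
    (hry : r ≤ ‖y‖) (hS : ∀ z ∈ S, ‖z‖ ≠ r) : ¬ IsPreconnected S := by
  intro h
  have h1 : IsPreconnected ((fun z : ℂ => ‖z‖) '' S) := h.image _ continuous_norm.continuousOn
  have h2 := h1.ordConnected.out ⟨x, hx, rfl⟩ ⟨y, hy, rfl⟩ ⟨hxr, hry⟩
  obtain ⟨z, hz, hzr⟩ := h2
  exact hS z hz hzr

theorem natCast_mem_circC {n k : ℕ} (h1 : 1 ≤ k) (hk : k ≤ n) : (k : ℂ) ∈ circC n :=
  ⟨k, h1, hk, Complex.norm_natCast _⟩

theorem not_conn_B (n : ℕ) (hn : 0 < n) : ¬ IsConnected (circB n) := by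
  intro h
  refine not_conn_of_norm (S := circB n) (x := 0) (y := 1) (r := 1 / 2) ⟨0, Nat.zero_le _, by simp⟩
    ⟨1, hn, by simp⟩ (by norm_num) (by norm_num) ?_ h.isPreconnected
  rintro z ⟨k, _, hk⟩ hz
  rw [hk] at hz
  have h1 : (2 * k : ℝ) = 1 := by linarith
  have h2 : 2 * k = 1 := by exact_mod_cast h1
  omega

theorem not_conn_C (n : ℕ) (hn : 2 ≤ n) : ¬ IsConnected (circC n) := by
  intro h
  refine not_conn_of_norm (S := circC n) (x := 1) (y := 2) (r := 3 / 2) ⟨1, le_rfl, by omega, by simp⟩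
    ⟨2, by norm_num, hn, by simp⟩ (by norm_num) (by norm_num) ?_ h.isPreconnected
  rintro z ⟨k, _, _, hk⟩ hz
  rw [hk] at hz
  have h1 : (2 * k : ℝ) = 3 := by linarith
  have h2 : 2 * k = 3 := by exact_mod_cast h1
  omega

theorem isConnected_L {S : Set ℂ} : IsConnected (L '' S) ↔ IsConnected S :=
  L.toHomeomorph.isConnected_image

theorem compl_L (S : Set ℂ) : (L '' S)ᶜ = L '' Sᶜ := (image_compl_eq L.bijective).symm

/-! ### No tree components -/

theorem cyclic_A (n : ℕ) (hn : 0 < n) :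
    ∀ x ∈ L '' circA n, ¬ IsConnected (connectedComponentIn (L '' circA n) x)ᶜ := by
  intro x hx hc
  have h1 : IsConnected (L '' circA n) := isConnected_L.2 (conn_A n hn)
  rw [h1.isPreconnected.connectedComponentIn hx, compl_L, isConnected_L] at hc
  obtain ⟨y, hy⟩ := roseFace_nonempty n 0
  obtain ⟨z, hz⟩ := roseFace_nonempty n (Fin.last n)
  have h2 := component_eq (S := (circA n)ᶜ) (roseFace n) (roseFace_open n) (roseFace_conn n)
    (roseFace_disj n) (roseFace_cover n hn) hy
  have hyS : y ∈ (circA n)ᶜ := (roseFace_cover n hn y).2 ⟨_, hy⟩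
  have hzS : z ∈ (circA n)ᶜ := (roseFace_cover n hn z).2 ⟨_, hz⟩
  rw [hc.isPreconnected.connectedComponentIn hyS] at h2
  rw [h2] at hzS
  have h3 := roseFace_disj n _ _ z hzS hz
  have h4 := congrArg Fin.val h3
  rw [Fin.val_zero, Fin.val_last] at h4
  omega

theorem cyclic_C (n : ℕ) :
    ∀ x ∈ L '' circC n, ¬ IsConnected (connectedComponentIn (L '' circC n) x)ᶜ := by
  rintro _ ⟨x, ⟨k, hk1, hkn, hk⟩, rfl⟩ hc
  have h1 : connectedComponentIn (L '' circC n) (L x) = L '' connectedComponentIn (circC n) x :=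
    (L.toHomeomorph.image_connectedComponentIn
      (show x ∈ circC n from ⟨k, hk1, hkn, hk⟩)).symm
  rw [h1, compl_L, isConnected_L] at hc
  have hsub : connectedComponentIn (circC n) x ⊆ {z | ‖z‖ = k} := by
    intro z hz
    by_contra hne
    have hzC := connectedComponentIn_subset _ _ hz
    obtain ⟨m, hm1, hmn, hm⟩ := hzC
    have hmk : m ≠ k := by
      rintro rfl
      exact hne hm
    have hx : x ∈ connectedComponentIn (circC n) x := mem_connectedComponentIn ⟨k, hk1, hkn, hk⟩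
    have hno : ∀ (j : ℕ), ∀ w ∈ connectedComponentIn (circC n) x, ‖w‖ ≠ (j : ℝ) + 1 / 2 := by
      intro j w hw hj
      obtain ⟨i, _, _, hi⟩ := connectedComponentIn_subset _ _ hw
      rw [hi] at hj
      have h1 : (2 * i : ℝ) = 2 * j + 1 := by linarith
      have h2 : 2 * i = 2 * j + 1 := by exact_mod_cast h1
      omega
    rcases lt_or_gt_of_ne hmk with h | h
    · refine not_conn_of_norm hz hx (r := (m : ℝ) + 1 / 2) (by rw [hm]; linarith) ?_ (hno m)
        isPreconnected_connectedComponentIn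
      have : (m : ℝ) + 1 ≤ k := by exact_mod_cast h
      rw [hk]
      linarith
    · refine not_conn_of_norm hx hz (r := (k : ℝ) + 1 / 2) (by rw [hk]; linarith) ?_ (hno k)
        isPreconnected_connectedComponentIn
      have : (k : ℝ) + 1 ≤ m := by exact_mod_cast h
      rw [hm]
      linarith
  have hsup : {z : ℂ | ‖z‖ = k} ⊆ connectedComponentIn (circC n) x := by
    have h2 : IsPreconnected {z : ℂ | ‖z‖ = k} := by
      have : {z : ℂ | ‖z‖ = k} = Metric.sphere (0 : ℂ) k := by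
        ext z
        simp
      rw [this]
      exact isPreconnected_sphere (by rw [Complex.rank_real_complex]; norm_num) _ _
    exact h2.subset_connectedComponentIn hk fun z hz => ⟨k, hk1, hkn, hz⟩
  rw [Subset.antisymm hsub hsup] at hc
  refine not_conn_of_norm (x := 0) (y := ((k + 1 : ℕ) : ℂ)) (r := k) ?_ ?_ ?_ ?_ (fun z hz => hz)
    hc.isPreconnected
  · intro h
    have h' : ‖(0 : ℂ)‖ = k := h
    rw [norm_zero] at h'
    have h'' : k = 0 := by exact_mod_cast h'.symm
    omega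
  · intro h
    have h' : ‖((k + 1 : ℕ) : ℂ)‖ = k := h
    rw [Complex.norm_natCast] at h'
    have h'' : k + 1 = k := by exact_mod_cast h'
    omega
  · rw [norm_zero]
    positivity
  · rw [Complex.norm_natCast]
    push_cast
    linarith

/-! ### The unordered configuration spaces are path connected -/

theorem conf_joined {n : ℕ} (x y : Fin n → ℂ) (hx : Function.Injective x)
    (hy : Function.Injective y) : JoinedIn {z : Fin n → ℂ | Function.Injective z} x y := by
  let B : Set ℂ := ⋃ q ∈ {q : Fin n × Fin n | q.1 ≠ q.2},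
    {t : ℂ | (1 - t) * x q.1 + t * y q.1 = (1 - t) * x q.2 + t * y q.2}
  have hB : B.Finite := by
    apply Set.Finite.biUnion (Set.toFinite _)
    rintro ⟨i, j⟩ hij
    apply Set.Subsingleton.finite
    intro s hs t ht
    have hs' : (1 - s) * x i + s * y i = (1 - s) * x j + s * y j := hs
    have ht' : (1 - t) * x i + t * y i = (1 - t) * x j + t * y j := ht
    have hxij : x i - x j ≠ 0 := sub_ne_zero.2 fun h => hij (hx h)
    by_contra hst
    apply hxij
    have h1 : (s - t) * (x i - x j) = 0 := by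
      linear_combination s * ht' - t * hs'
    rcases mul_eq_zero.1 h1 with h | h
    · exact absurd (sub_eq_zero.1 h) hst
    · exact h
  have hpc : IsPathConnected Bᶜ :=
    hB.countable.isPathConnected_compl_of_one_lt_rank (by rw [Complex.rank_real_complex]; norm_num)
  have h0 : (0 : ℂ) ∈ Bᶜ := by
    intro h
    obtain ⟨⟨i, j⟩, hij, h⟩ := mem_iUnion₂.1 h
    have h' : (1 - 0) * x i + 0 * y i = (1 - 0) * x j + 0 * y j := h
    simp only [sub_zero, one_mul, zero_mul, add_zero] at h'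
    exact hij (hx h')
  have h1 : (1 : ℂ) ∈ Bᶜ := by
    intro h
    obtain ⟨⟨i, j⟩, hij, h⟩ := mem_iUnion₂.1 h
    have h' : (1 - 1) * x i + 1 * y i = (1 - 1) * x j + 1 * y j := h
    simp only [sub_self, one_mul, zero_mul, zero_add] at h'
    exact hij (hy h')
  obtain ⟨γ, hγ⟩ := hpc.joinedIn _ h0 _ h1
  refine ⟨⟨⟨fun s i => (1 - γ s) * x i + γ s * y i, ?_⟩, ?_, ?_⟩, ?_⟩
  · have := γ.continuous
    fun_prop
  · funext i
    simp
  · funext i
    simp
  · intro s i j hij
    by_contra hne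
    exact hγ s (mem_iUnion₂.2 ⟨(i, j), hne, hij⟩)

instance uconf_pathConnected (n : ℕ) : PathConnectedSpace (UConf n) := by
  let q : {z : Fin n → ℂ | Function.Injective z} → UConf n := fun z =>
    Quot.mk _ ⟨fun i => L (z.1 i), L.injective.comp z.2⟩
  have hq : Continuous q := by
    have h1 : Continuous (Quot.mk (Conf.Perm (n := n))) := continuous_quot_mk
    refine h1.comp (Continuous.subtype_mk ?_ _)
    exact continuous_pi fun i => L.continuous.comp ((continuous_apply i).comp continuous_subtype_val)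
  have hsurj : Function.Surjective q := by
    intro a
    induction a using Quot.ind with
    | mk z =>
      refine ⟨⟨fun i => L.symm (z.1 i), L.symm.injective.comp z.2⟩, ?_⟩
      apply congrArg (Quot.mk _)
      apply Subtype.ext
      funext i
      exact L.apply_symm_apply _
  have hpc : PathConnectedSpace {z : Fin n → ℂ | Function.Injective z} := by
    rw [← isPathConnected_iff_pathConnectedSpace, isPathConnected_iff]
    refine ⟨⟨fun i => ((i : ℕ) : ℂ), fun i j h => Fin.ext (Nat.cast_injective h)⟩, ?_⟩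
    intro x hx y hy
    exact conf_joined x y hx hy
  exact hsurj.pathConnectedSpace hq

/-- A space with a nontrivial clopen set is not homotopy equivalent to a path connected one. -/
theorem not_homotopyEquiv {X Y : Type} [TopologicalSpace X] [TopologicalSpace Y]
    [PathConnectedSpace Y] {K : Set X} (hK : IsClopen K) {a b : X} (ha : a ∈ K) (hb : b ∉ K) :
    ¬ Nonempty (ContinuousMap.HomotopyEquiv X Y) := by
  rintro ⟨e⟩
  have hpath : ∀ (γ : unitInterval → X), Continuous γ → (γ 0 ∈ K ↔ γ 1 ∈ K) := by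
    intro γ hγ
    have h : IsClopen (γ ⁻¹' K) := hK.preimage hγ
    rcases isClopen_iff.1 h with h1 | h1
    · have hs : (0 : unitInterval) ∉ γ ⁻¹' K := by rw [h1]; exact notMem_empty _
      have ht : (1 : unitInterval) ∉ γ ⁻¹' K := by rw [h1]; exact notMem_empty _
      exact ⟨fun h => absurd h hs, fun h => absurd h ht⟩
    · have hs : (0 : unitInterval) ∈ γ ⁻¹' K := by rw [h1]; exact mem_univ _
      have ht : (1 : unitInterval) ∈ γ ⁻¹' K := by rw [h1]; exact mem_univ _
      exact ⟨fun _ => ht, fun _ => hs⟩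
  obtain ⟨H⟩ := e.left_inv
  have h1 : ∀ x, e.invFun (e.toFun x) ∈ K ↔ x ∈ K := by
    intro x
    have h2 := hpath (fun t => H (t, x)) (by fun_prop)
    simpa using h2
  have h2 : e.invFun (e.toFun a) ∈ K ↔ e.invFun (e.toFun b) ∈ K := by
    obtain ⟨γ⟩ := PathConnectedSpace.joined (e.toFun a) (e.toFun b)
    have h3 := hpath (fun t => e.invFun (γ t)) (e.invFun.continuous.comp γ.continuous)
    simpa using h3
  exact hb ((h1 b).1 (h2.1 ((h1 a).2 ha)))

theorem main (n : ℕ) (hn : 1 ≤ n) : ¬ Nonempty (ContinuousMap.HomotopyEquiv (Nn n) (UConf n)) ∧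
    (2 ≤ n → ¬ Nonempty (ContinuousMap.HomotopyEquiv (NnCyclic n) (UConf n))) := by
  obtain ⟨pA, hA⟩ := drawn_A n hn
  obtain ⟨pB, hB⟩ := drawn_B n
  obtain ⟨pC, hC⟩ := drawn_C n
  let a : N := Quotient.mk _ pA
  let b : N := Quotient.mk _ pB
  let c : N := Quotient.mk _ pC
  have ha : a.image = L '' circA n := hA
  have hb : b.image = L '' circB n := hB
  have hc : c.image = L '' circC n := hC
  let a' : Nn n := ⟨a, by rw [ha]; exact faces_A n hn⟩
  let b' : Nn n := ⟨b, by rw [hb]; exact faces_B n⟩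
  let c' : Nn n := ⟨c, by rw [hc]; exact faces_C n⟩
  have hK : IsClopen {x : Nn n | IsConnected x.1.image} := isClopen_conn.preimage continuous_subtype_val
  constructor
  · refine not_homotopyEquiv hK (a := a') (b := b') ?_ ?_
    · show IsConnected a.image
      rw [ha, isConnected_L]
      exact conn_A n hn
    · show ¬ IsConnected b.image
      rw [hb, isConnected_L]
      exact not_conn_B n hn
  · intro hn2
    let a'' : NnCyclic n := ⟨a', by
      show ∀ x ∈ a.image, ¬ IsConnected (connectedComponentIn a.image x)ᶜ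
      rw [ha]
      exact cyclic_A n hn⟩
    let c'' : NnCyclic n := ⟨c', by
      show ∀ x ∈ c.image, ¬ IsConnected (connectedComponentIn c.image x)ᶜ
      rw [hc]
      exact cyclic_C n⟩
    refine not_homotopyEquiv (K := {x : NnCyclic n | IsConnected x.1.1.image})
      (hK.preimage continuous_subtype_val) (a := a'') (b := c'') ?_ ?_
    · show IsConnected a.image
      rw [ha, isConnected_L]
      exact conn_A n hn
    · show ¬ IsConnected c.image
      rw [hc, isConnected_L]
      exact not_conn_C n hn2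

end Q178.PG
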