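import Mathlib

/-!
# Moduli of planar graphs: definitions
-/

open Set Topology

namespace Q178.PG

/-- The Euclidean plane. -/
abbrev Plane : Type := EuclideanSpace ℝ (Fin 2)

/-- A finite graph with loops and multiple edges allowed: `nV` vertices, `nE` edges, the edge `e`
being parametrised by `[0,1]`, from the vertex `src e` to the vertex `tgt e`. No connectedness is
required. -/
structure FGraph where
  nV : ℕ
  nE : ℕ
  src : Fin nE → Fin nV
  tgt : Fin nE → Fin nV

/-- The gluing of the ends of the edges to the vertices. -/
inductive FGraph.Glue (G : FGraph) :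
    Fin G.nV ⊕ (Fin G.nE × unitInterval) → Fin G.nV ⊕ (Fin G.nE × unitInterval) → Prop
  | src (e : Fin G.nE) : FGraph.Glue G (Sum.inr (e, 0)) (Sum.inl (G.src e))
  | tgt (e : Fin G.nE) : FGraph.Glue G (Sum.inr (e, 1)) (Sum.inl (G.tgt e))

/-- The graph viewed as a 1-dimensional CW complex: vertices and edges glued together. -/
def FGraph.Space (G : FGraph) : Type := Quot G.Glue

instance (G : FGraph) : TopologicalSpace G.Space :=
  inferInstanceAs (TopologicalSpace (Quot G.Glue))

/-- The vertex `v` as a point of the CW complex. -/
def FGraph.vtx (G : FGraph) (v : Fin G.nV) : G.Space := Quot.mk _ (Sum.inl v)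

/-- The point with parameter `t` of the edge `e`. -/
def FGraph.pt (G : FGraph) (e : Fin G.nE) (t : unitInterval) : G.Space :=
  Quot.mk _ (Sum.inr (e, t))

/-- The closed edge `e` as a subset of the CW complex. -/
def FGraph.edge (G : FGraph) (e : Fin G.nE) : Set G.Space := range (G.pt e)

variable {P : Type} [TopologicalSpace P]

/-- The map `φ` is constant on the edge `e`. -/
def ConstOn (G : FGraph) (φ : C(G.Space, P)) (e : Fin G.nE) : Prop :=
  ∀ x ∈ G.edge e, ∀ y ∈ G.edge e, φ x = φ y

/-- The equivalence relation on vertices generated by the endpoints of the edges on which `φ` is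
constant. -/
def VertexRel (G : FGraph) (φ : C(G.Space, P)) : Fin G.nV → Fin G.nV → Prop :=
  Relation.EqvGen fun v w => ∃ e, ConstOn G φ e ∧ G.src e = v ∧ G.tgt e = w

/-- The edge `e` joins the vertices `v` and `w`. -/
def FGraph.Joins (G : FGraph) (e : Fin G.nE) (v w : Fin G.nV) : Prop :=
  (G.src e = v ∧ G.tgt e = w) ∨ (G.src e = w ∧ G.tgt e = v)

/-- Degenerate graph embeddings. -/
structure IsDegEmb (G : FGraph) (φ : C(G.Space, P)) : Prop where
  /-- each restriction to an edge is an embedding or constant -/
  edges : ∀ e, IsEmbedding ((G.edge e).domRestrict φ) ∨ ConstOn G φ e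
  /-- two vertices have the same image exactly when they are related -/
  vertices : ∀ v w, φ (G.vtx v) = φ (G.vtx w) ↔ VertexRel G φ v w
  /-- the interior of a non-constant edge misses the images of the vertices -/
  interior_vertex : ∀ e, ¬ ConstOn G φ e → ∀ t ∈ Ioo (0 : unitInterval) 1, ∀ v,
    φ (G.pt e t) ≠ φ (G.vtx v)
  /-- the interiors of two distinct non-constant edges have disjoint images -/
  interior_interior : ∀ e f, e ≠ f → ¬ ConstOn G φ e → ¬ ConstOn G φ f →
    ∀ s ∈ Ioo (0 : unitInterval) 1, ∀ t ∈ Ioo (0 : unitInterval) 1,
      φ (G.pt e s) ≠ φ (G.pt f t)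
  /-- no cycle of the graph has all its edges constant -/
  no_const_cycle : ∀ (k : ℕ) (v : ZMod (k + 1) → Fin G.nV) (e : ZMod (k + 1) → Fin G.nE),
    Function.Injective v → Function.Injective e → (∀ i, G.Joins (e i) (v i) (v (i + 1))) →
      ¬ ∀ i, ConstOn G φ (e i)

/-- The space `DegEmb(G, ℝ²)` with the compact-open topology. -/
def DegEmb (G : FGraph) : Type := {φ : C(G.Space, Plane) // IsDegEmb G φ}

instance (G : FGraph) : TopologicalSpace (DegEmb G) :=
  inferInstanceAs (TopologicalSpace {φ : C(G.Space, Plane) // IsDegEmb G φ})

/-- The image of a degenerate graph embedding. -/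
def img (p : Σ G : FGraph, DegEmb G) : Set Plane := range p.2.1

/-- The space `𝒩(ℝ²)`: the disjoint union of the spaces `DegEmb(G, ℝ²)` over the finite graphs `G`,
two degenerate embeddings being identified exactly when their images coincide; quotient
topology. -/
def N : Type := Quotient (Setoid.ker img)

instance : TopologicalSpace N := inferInstanceAs (TopologicalSpace (Quotient (Setoid.ker img)))

/-- The image in the plane of a class. -/
def N.image (a : N) : Set Plane := Quotient.lift img (fun _ _ h => h) a

/-- The faces of a subset of the plane: the connected components of its complement. -/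
def faces (S : Set Plane) : Set (Set Plane) := {C | ∃ x ∈ Sᶜ, C = connectedComponentIn Sᶜ x}

/-- The subspace `𝒩_n(ℝ²)` of the classes with exactly `n` bounded faces. -/
def Nn (n : ℕ) : Type := {a : N // {C ∈ faces a.image | Bornology.IsBounded C}.encard = n}

instance (n : ℕ) : TopologicalSpace (Nn n) :=
  inferInstanceAs (TopologicalSpace
    {a : N // {C ∈ faces a.image | Bornology.IsBounded C}.encard = n})

/-- The subspace of `𝒩_n(ℝ²)` of the classes whose image has no tree among its connected
components: each connected component of the image separates the plane. -/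
def NnCyclic (n : ℕ) : Type :=
  {a : Nn n // ∀ x ∈ a.1.image, ¬ IsConnected (connectedComponentIn a.1.image x)ᶜ}

instance (n : ℕ) : TopologicalSpace (NnCyclic n) :=
  inferInstanceAs (TopologicalSpace
    {a : Nn n // ∀ x ∈ a.1.image, ¬ IsConnected (connectedComponentIn a.1.image x)ᶜ})

/-- The ordered configurations of `n` distinct points of the plane. -/
def Conf (n : ℕ) : Type := {x : Fin n → Plane // Function.Injective x}

instance (n : ℕ) : TopologicalSpace (Conf n) :=
  inferInstanceAs (TopologicalSpace {x : Fin n → Plane // Function.Injective x})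

/-- Two ordered configurations differ by a permutation. -/
def Conf.Perm {n : ℕ} (x y : Conf n) : Prop := ∃ σ : Equiv.Perm (Fin n), y.1 = x.1 ∘ σ

/-- The unordered configuration space: the quotient by the symmetric group. -/
def UConf (n : ℕ) : Type := Quot (Conf.Perm (n := n))

instance (n : ℕ) : TopologicalSpace (UConf n) :=
  inferInstanceAs (TopologicalSpace (Quot (Conf.Perm (n := n))))

end Q178.PG
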