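import Pool.Agent.Q178.PG.Rose

/-!
# Counting the bounded faces, and three drawings
-/

open Set Topology

namespace Q178.PG

theorem component_eq {X : Type} [TopologicalSpace X] {ι : Type} {S : Set X} (F : ι → Set X)
    (hopen : ∀ k, IsOpen (F k)) (hconn : ∀ k, IsPreconnected (F k))
    (hdisj : ∀ j k x, x ∈ F j → x ∈ F k → j = k) (hU : ∀ x, x ∈ S ↔ ∃ k, x ∈ F k) {k : ι} {x : X}
    (hx : x ∈ F k) : connectedComponentIn S x = F k := by
  apply Subset.antisymm
  · have h1 : IsPreconnected (connectedComponentIn S x) := isPreconnected_connectedComponentIn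
    have hxS : x ∈ S := (hU x).2 ⟨k, hx⟩
    have h2 : connectedComponentIn S x ⊆ F k ∪ ⋃ (j : ι) (_ : j ≠ k), F j := by
      intro y hy
      obtain ⟨j, hj⟩ := (hU y).1 (connectedComponentIn_subset _ _ hy)
      by_cases hjk : j = k
      · exact Or.inl (hjk ▸ hj)
      · exact Or.inr (mem_iUnion₂.2 ⟨j, hjk, hj⟩)
    have h3 : Disjoint (F k) (⋃ (j : ι) (_ : j ≠ k), F j) := by
      rw [disjoint_left]
      intro y hy hy'
      obtain ⟨j, hjk, hj⟩ := mem_iUnion₂.1 hy'
      exact hjk (hdisj j k y hj hy)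
    exact h1.subset_left_of_subset_union (hopen k)
      (isOpen_iUnion fun j => isOpen_iUnion fun _ => hopen j) h3 h2
      ⟨x, mem_connectedComponentIn hxS, hx⟩
  · exact (hconn k).subset_connectedComponentIn hx fun y hy => (hU y).2 ⟨k, hy⟩

theorem count_faces {S : Set Plane} {n : ℕ} (F : Fin (n + 1) → Set Plane)
    (hopen : ∀ k, IsOpen (F k)) (hconn : ∀ k, IsPreconnected (F k)) (hne : ∀ k, (F k).Nonempty)
    (hdisj : ∀ j k x, x ∈ F j → x ∈ F k → j = k) (hU : ∀ x, x ∈ Sᶜ ↔ ∃ k, x ∈ F k)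
    (hb : ∀ k, Bornology.IsBounded (F k) ↔ k ≠ Fin.last n) :
    {C ∈ faces S | Bornology.IsBounded C}.encard = n := by
  have hcomp : ∀ k x, x ∈ F k → connectedComponentIn Sᶜ x = F k := fun k x hx =>
    component_eq F hopen hconn hdisj hU hx
  have hset : {C ∈ faces S | Bornology.IsBounded C} =
      (fun k => F k) '' {k : Fin (n + 1) | k ≠ Fin.last n} := by
    ext C
    constructor
    · rintro ⟨⟨x, hx, rfl⟩, hbd⟩
      obtain ⟨k, hk⟩ := (hU x).1 hx
      rw [hcomp k x hk] at hbd ⊢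
      exact ⟨k, (hb k).1 hbd, rfl⟩
    · rintro ⟨k, hk, rfl⟩
      obtain ⟨x, hx⟩ := hne k
      exact ⟨⟨x, (hU x).2 ⟨k, hx⟩, (hcomp k x hx).symm⟩, (hb k).2 hk⟩
  have hinj : Function.Injective (fun k => F k) := by
    intro j k hjk
    obtain ⟨x, hx⟩ := hne j
    have hjk' : F j = F k := hjk
    exact hdisj j k x hx (hjk' ▸ hx)
  rw [hset, hinj.encard_image]
  have h1 : {k : Fin (n + 1) | k ≠ Fin.last n} = ((Finset.univ.erase (Fin.last n) : Finset (Fin (n + 1))) : Set (Fin (n + 1))) := by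
    ext k
    simp
  rw [h1, Set.encard_coe_eq_coe_finsetCard, Finset.card_erase_of_mem (Finset.mem_univ _)]
  simp

/-- The complex version. -/
theorem count_faces' {S : Set ℂ} {n : ℕ} (F : Fin (n + 1) → Set ℂ)
    (hopen : ∀ k, IsOpen (F k)) (hconn : ∀ k, IsPreconnected (F k)) (hne : ∀ k, (F k).Nonempty)
    (hdisj : ∀ j k x, x ∈ F j → x ∈ F k → j = k) (hU : ∀ x, x ∉ S ↔ ∃ k, x ∈ F k)
    (hb : ∀ k, k ≠ Fin.last n → Bornology.IsBounded (F k))
    (hb' : ¬ Bornology.IsBounded (F (Fin.last n))) :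
    {C ∈ faces (L '' S) | Bornology.IsBounded C}.encard = n := by
  refine count_faces (fun k => L '' F k) (fun k => L.toHomeomorph.isOpenMap _ (hopen k))
    (fun k => (hconn k).image _ L.continuous.continuousOn) (fun k => (hne k).image _) ?_ ?_ ?_
  · rintro j k _ ⟨x, hx, rfl⟩ ⟨y, hy, hxy⟩
    rw [L.injective hxy] at hy
    exact hdisj j k x hx hy
  · intro y
    obtain ⟨x, rfl⟩ := L.surjective y
    constructor
    · intro hx
      obtain ⟨k, hk⟩ := (hU x).1 fun h => hx ⟨x, h, rfl⟩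
      exact ⟨k, x, hk, rfl⟩
    · rintro ⟨k, x', hx', hxx⟩ ⟨x'', hx'', hxx'⟩
      rw [L.injective hxx] at hx'
      rw [L.injective hxx'] at hx''
      exact (hU x).2 ⟨k, hx'⟩ hx''
  · intro k
    constructor
    · rintro h rfl
      apply hb'
      have h1 : Bornology.IsBounded (L.symm '' (L '' F (Fin.last n))) :=
        L.symm.lipschitz.isBounded_image h
      rwa [← image_comp, show (L.symm : Plane → ℂ) ∘ L = id from funext fun x => L.symm_apply_apply x,
        image_id] at h1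
    · intro hk
      exact L.lipschitz.isBounded_image (hb k hk)

theorem radial {J : Set ℝ} (hJ : J.OrdConnected) : IsPreconnected {z : ℂ | ‖z‖ ∈ J} := by
  have h1 : {z : ℂ | ‖z‖ ∈ J} =
      (fun q : ℝ × ℂ => (q.1 : ℂ) * q.2) '' ((J ∩ Ici 0) ×ˢ Metric.sphere (0 : ℂ) 1) := by
    ext z
    constructor
    · intro hz
      by_cases h0 : z = 0
      · subst h0
        have hz' : (0 : ℝ) ∈ J := by simpa using hz
        exact ⟨(0, 1), ⟨⟨hz', mem_Ici.2 le_rfl⟩, by simp⟩, by simp⟩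
      · have hn : ‖z‖ ≠ 0 := norm_ne_zero_iff.2 h0
        refine ⟨(‖z‖, z / ‖z‖), ⟨⟨hz, norm_nonneg _⟩, ?_⟩, ?_⟩
        · rw [mem_sphere_zero_iff_norm, norm_div, Complex.norm_real, norm_norm, div_self hn]
        · have : (‖z‖ : ℂ) ≠ 0 := by exact_mod_cast hn
          show (‖z‖ : ℂ) * (z / ‖z‖) = z
          field_simp
    · rintro ⟨⟨r, u⟩, ⟨⟨hr, hr0⟩, hu⟩, rfl⟩
      rw [mem_sphere_zero_iff_norm] at hu
      have hu' : ‖u‖ = 1 := hu
      have hr0' : (0 : ℝ) ≤ r := hr0
      show ‖(r : ℂ) * u‖ ∈ J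
      rw [norm_mul, Complex.norm_real, Real.norm_of_nonneg hr0', hu', mul_one]
      exact hr
  rw [h1]
  refine IsPreconnected.image (IsPreconnected.prod ?_ ?_) _ (by fun_prop)
  · exact (hJ.inter ordConnected_Ici).isPreconnected
  · exact isPreconnected_sphere (by rw [Complex.rank_real_complex]; norm_num) _ _

/-! ### Concentric circles, with the centre as an isolated vertex -/

/-- concentric circles with their centre -/
def circB (n : ℕ) : Set ℂ := {z | ∃ k : ℕ, k ≤ n ∧ ‖z‖ = k}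

/-- concentric circles -/
def circC (n : ℕ) : Set ℂ := {z | ∃ k : ℕ, 1 ≤ k ∧ k ≤ n ∧ ‖z‖ = k}

theorem faces_B (n : ℕ) : {C ∈ faces (L '' circB n) | Bornology.IsBounded C}.encard = n := by
  refine count_faces' (fun k => {z | ‖z‖ ∈ {r : ℝ | (k : ℕ) < r ∧ ((k : ℕ) < n → r < (k : ℕ) + 1)}})
    ?_ ?_ ?_ ?_ ?_ ?_ ?_
  · intro k
    by_cases hk : (k : ℕ) < n
    · simp only [hk, true_imp_iff]
      exact (isOpen_lt continuous_const continuous_norm).inter
        (isOpen_lt continuous_norm continuous_const)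
    · simp only [hk, false_imp_iff, and_true]
      exact isOpen_lt continuous_const continuous_norm
  · intro k
    apply radial
    constructor
    rintro a ⟨ha, ha'⟩ b ⟨hb, hb'⟩ c ⟨hc, hc'⟩
    exact ⟨ha.trans_le hc, fun h => hc'.trans_lt (hb' h)⟩
  · intro k
    refine ⟨((k : ℕ) + 1 / 2 : ℝ), ?_, ?_⟩
    · rw [Complex.norm_real, Real.norm_of_nonneg (by positivity)]
      linarith
    · intro _
      rw [Complex.norm_real, Real.norm_of_nonneg (by positivity)]
      linarith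
  · rintro j k z ⟨h1, h2⟩ ⟨h3, h4⟩
    by_contra hjk
    rcases lt_or_gt_of_ne hjk with h | h
    · have hj : (j : ℕ) < n := lt_of_lt_of_le h (Nat.le_of_lt_succ k.2)
      have h5 := h2 hj
      have h6 : ((j : ℕ) : ℝ) + 1 ≤ (k : ℕ) := by exact_mod_cast h
      linarith
    · have hk : (k : ℕ) < n := lt_of_lt_of_le h (Nat.le_of_lt_succ j.2)
      have h5 := h4 hk
      have h6 : ((k : ℕ) : ℝ) + 1 ≤ (j : ℕ) := by exact_mod_cast h
      linarith
  · intro z
    constructor
    · intro hz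
      have hfl : (⌊‖z‖⌋₊ : ℝ) ≤ ‖z‖ := Nat.floor_le (norm_nonneg _)
      by_cases h : ⌊‖z‖⌋₊ < n
      · refine ⟨⟨⌊‖z‖⌋₊, by omega⟩, ?_, fun _ => Nat.lt_floor_add_one _⟩
        exact lt_of_le_of_ne hfl fun h' => hz ⟨_, h.le, h'.symm⟩
      · refine ⟨Fin.last n, ?_, fun h' => absurd h' (lt_irrefl _)⟩
        have h1 : (n : ℝ) ≤ ‖z‖ := le_trans (by exact_mod_cast not_lt.1 h) hfl
        exact lt_of_le_of_ne h1 fun h' => hz ⟨n, le_rfl, h'.symm⟩
    · rintro ⟨k, h1, h2⟩ ⟨m, hm, hm'⟩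
      rw [hm'] at h1 h2
      have h3 : (k : ℕ) < m := by exact_mod_cast h1
      have h4 := h2 (lt_of_lt_of_le h3 hm)
      have h5 : m < (k : ℕ) + 1 := by exact_mod_cast h4
      omega
  · intro k hk
    have hk' : (k : ℕ) < n := by
      rcases lt_or_eq_of_le (Nat.le_of_lt_succ k.2) with h | h
      · exact h
      · exact absurd (Fin.ext h) hk
    refine (Metric.isBounded_ball (x := (0 : ℂ)) (r := (k : ℕ) + 1)).subset ?_
    rintro z ⟨_, h⟩
    rw [mem_ball_zero_iff]
    exact h hk'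
  · intro h
    obtain ⟨C, hC⟩ := isBounded_iff_forall_norm_le.1 h
    have h1 := hC ((max C n + 1 : ℝ) : ℂ) (by
      refine ⟨?_, fun h' => absurd h' (lt_irrefl _)⟩
      rw [Complex.norm_real, Real.norm_of_nonneg (by positivity)]
      have : (n : ℝ) ≤ max C n := le_max_right _ _
      show ((Fin.last n : ℕ) : ℝ) < _
      rw [Fin.val_last]
      linarith)
    rw [Complex.norm_real, Real.norm_of_nonneg (by positivity)] at h1
    linarith [le_max_left C n]

theorem faces_C (n : ℕ) : {C ∈ faces (L '' circC n) | Bornology.IsBounded C}.encard = n := by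
  refine count_faces' (fun k => {z | ‖z‖ ∈ {r : ℝ | (0 < (k : ℕ) → (k : ℕ) < r) ∧
    ((k : ℕ) < n → r < (k : ℕ) + 1)}}) ?_ ?_ ?_ ?_ ?_ ?_ ?_
  · intro k
    have h1 : IsOpen {z : ℂ | 0 < (k : ℕ) → (k : ℕ) < ‖z‖} := by
      by_cases hk : 0 < (k : ℕ)
      · simp only [hk, true_imp_iff]
        exact isOpen_lt continuous_const continuous_norm
      · simp only [hk, false_imp_iff]
        exact isOpen_univ
    have h2 : IsOpen {z : ℂ | (k : ℕ) < n → ‖z‖ < (k : ℕ) + 1} := by
      by_cases hk : (k : ℕ) < n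
      · simp only [hk, true_imp_iff]
        exact isOpen_lt continuous_norm continuous_const
      · simp only [hk, false_imp_iff]
        exact isOpen_univ
    exact h1.inter h2
  · intro k
    apply radial
    constructor
    rintro a ⟨ha, ha'⟩ b ⟨hb, hb'⟩ c ⟨hc, hc'⟩
    exact ⟨fun h => (ha h).trans_le hc, fun h => hc'.trans_lt (hb' h)⟩
  · intro k
    refine ⟨((k : ℕ) + 1 / 2 : ℝ), ?_, ?_⟩
    · intro _
      rw [Complex.norm_real, Real.norm_of_nonneg (by positivity)]
      linarith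
    · intro _
      rw [Complex.norm_real, Real.norm_of_nonneg (by positivity)]
      linarith
  · rintro j k z ⟨h1, h2⟩ ⟨h3, h4⟩
    by_contra hjk
    rcases lt_or_gt_of_ne hjk with h | h
    · have hj : (j : ℕ) < n := lt_of_lt_of_le h (Nat.le_of_lt_succ k.2)
      have h5 := h2 hj
      have h6 : ((j : ℕ) : ℝ) + 1 ≤ (k : ℕ) := by exact_mod_cast h
      have h7 := h3 (Nat.pos_of_ne_zero (by rintro h0; omega))
      linarith
    · have hk : (k : ℕ) < n := lt_of_lt_of_le h (Nat.le_of_lt_succ j.2)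
      have h5 := h4 hk
      have h6 : ((k : ℕ) : ℝ) + 1 ≤ (j : ℕ) := by exact_mod_cast h
      have h7 := h1 (Nat.pos_of_ne_zero (by rintro h0; omega))
      linarith
  · intro z
    constructor
    · intro hz
      have hfl : (⌊‖z‖⌋₊ : ℝ) ≤ ‖z‖ := Nat.floor_le (norm_nonneg _)
      by_cases h : ⌊‖z‖⌋₊ < n
      · refine ⟨⟨⌊‖z‖⌋₊, by omega⟩, fun h0 => ?_, fun _ => Nat.lt_floor_add_one _⟩
        exact lt_of_le_of_ne hfl fun h' => hz ⟨_, h0, h.le, h'.symm⟩
      · refine ⟨Fin.last n, fun h0 => ?_, fun h' => absurd h' (lt_irrefl _)⟩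
        have h1 : (n : ℝ) ≤ ‖z‖ := le_trans (by exact_mod_cast not_lt.1 h) hfl
        exact lt_of_le_of_ne h1 fun h' => hz ⟨n, h0, le_rfl, h'.symm⟩
    · rintro ⟨k, h1, h2⟩ ⟨m, hm1, hm, hm'⟩
      rw [hm'] at h1 h2
      by_cases h0 : 0 < (k : ℕ)
      · have h3 : (k : ℕ) < m := by exact_mod_cast h1 h0
        have h4 := h2 (lt_of_lt_of_le h3 hm)
        have h5 : m < (k : ℕ) + 1 := by exact_mod_cast h4
        omega
      · have h4 := h2 (by omega)
        have h5 : m < (k : ℕ) + 1 := by exact_mod_cast h4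
        omega
  · intro k hk
    have hk' : (k : ℕ) < n := by
      rcases lt_or_eq_of_le (Nat.le_of_lt_succ k.2) with h | h
      · exact h
      · exact absurd (Fin.ext h) hk
    refine (Metric.isBounded_ball (x := (0 : ℂ)) (r := (k : ℕ) + 1)).subset ?_
    rintro z ⟨_, h⟩
    rw [mem_ball_zero_iff]
    exact h hk'
  · intro h
    obtain ⟨C, hC⟩ := isBounded_iff_forall_norm_le.1 h
    have h1 := hC ((max C n + 1 : ℝ) : ℂ) (by
      refine ⟨fun _ => ?_, fun h' => absurd h' (lt_irrefl _)⟩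
      rw [Complex.norm_real, Real.norm_of_nonneg (by positivity)]
      have : (n : ℝ) ≤ max C n := le_max_right _ _
      show ((Fin.last n : ℕ) : ℝ) < _
      rw [Fin.val_last]
      linarith)
    rw [Complex.norm_real, Real.norm_of_nonneg (by positivity)] at h1
    linarith [le_max_left C n]

end Q178.PG
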