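import Pool.Agent.Q178.PG.Defs

/-!
# Connectedness of the image is locally constant
-/

open Set Topology

namespace Q178.PG

variable {P : Type} [TopologicalSpace P]

theorem continuous_pt (G : FGraph) (e : Fin G.nE) : Continuous (G.pt e) := by
  have h : Continuous (Quot.mk G.Glue) := continuous_quot_mk
  exact h.comp (continuous_inr.comp (continuous_const.prodMk continuous_id))

theorem pt_zero (G : FGraph) (e : Fin G.nE) : G.pt e 0 = G.vtx (G.src e) :=
  Quot.sound (FGraph.Glue.src e)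

theorem pt_one (G : FGraph) (e : Fin G.nE) : G.pt e 1 = G.vtx (G.tgt e) :=
  Quot.sound (FGraph.Glue.tgt e)

theorem space_cases (G : FGraph) (x : G.Space) : (∃ v, x = G.vtx v) ∨ ∃ e t, x = G.pt e t := by
  induction x using Quot.ind with
  | mk a =>
    rcases a with v | ⟨e, t⟩
    · exact Or.inl ⟨v, rfl⟩
    · exact Or.inr ⟨e, t, rfl⟩

instance (G : FGraph) : CompactSpace G.Space :=
  inferInstanceAs (CompactSpace (Quot G.Glue))

theorem pt_mem_iff {G : FGraph} {U : Set G.Space} (hU : IsClopen U) (e : Fin G.nE)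
    (s t : unitInterval) : G.pt e s ∈ U ↔ G.pt e t ∈ U := by
  have h : IsClopen (G.pt e ⁻¹' U) := hU.preimage (continuous_pt G e)
  rcases isClopen_iff.1 h with h1 | h1
  · have hs : s ∉ G.pt e ⁻¹' U := by rw [h1]; exact notMem_empty _
    have ht : t ∉ G.pt e ⁻¹' U := by rw [h1]; exact notMem_empty _
    exact ⟨fun h => absurd h hs, fun h => absurd h ht⟩
  · have hs : s ∈ G.pt e ⁻¹' U := by rw [h1]; exact mem_univ _
    have ht : t ∈ G.pt e ⁻¹' U := by rw [h1]; exact mem_univ _
    exact ⟨fun _ => ht, fun _ => hs⟩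

theorem vertexRel_mem {G : FGraph} {φ : C(G.Space, P)} {U : Set G.Space} (hU : IsClopen U)
    {v w : Fin G.nV} (h : VertexRel G φ v w) : G.vtx v ∈ U ↔ G.vtx w ∈ U := by
  induction h with
  | rel x y hxy =>
    obtain ⟨e, _, rfl, rfl⟩ := hxy
    rw [← pt_zero, ← pt_one]
    exact pt_mem_iff hU e _ _
  | refl x => exact Iff.rfl
  | symm x y _ ih => exact ih.symm
  | trans x y z _ _ ih1 ih2 => exact ih1.trans ih2

/-- Every point is tied to a vertex with the same image, or is interior to a non-constant edge. -/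
theorem tie {G : FGraph} {φ : C(G.Space, P)} (x : G.Space) :
    (∃ v, φ x = φ (G.vtx v) ∧ ∀ U : Set G.Space, IsClopen U → (x ∈ U ↔ G.vtx v ∈ U)) ∨
    ∃ e t, t ∈ Ioo (0 : unitInterval) 1 ∧ ¬ ConstOn G φ e ∧ x = G.pt e t := by
  rcases space_cases G x with ⟨v, rfl⟩ | ⟨e, t, rfl⟩
  · exact Or.inl ⟨v, rfl, fun _ _ => Iff.rfl⟩
  · by_cases hc : ConstOn G φ e
    · refine Or.inl ⟨G.src e, ?_, fun U hU => ?_⟩
      · rw [← pt_zero]
        exact hc _ ⟨t, rfl⟩ _ ⟨0, rfl⟩
      · rw [← pt_zero]
        exact pt_mem_iff hU e _ _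
    · rcases eq_or_ne t 0 with rfl | h0
      · exact Or.inl ⟨G.src e, by rw [pt_zero], fun U hU => by rw [pt_zero]⟩
      · rcases eq_or_ne t 1 with rfl | h1
        · exact Or.inl ⟨G.tgt e, by rw [pt_one], fun U hU => by rw [pt_one]⟩
        · refine Or.inr ⟨e, t, ⟨lt_of_le_of_ne unitInterval.nonneg' h0.symm, lt_of_le_of_ne unitInterval.le_one' h1⟩, hc, rfl⟩

/-- Points with the same image lie in the same clopen sets. -/
theorem same {G : FGraph} {φ : C(G.Space, P)} (h : IsDegEmb G φ) {x y : G.Space}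
    (hxy : φ x = φ y) {U : Set G.Space} (hU : IsClopen U) : x ∈ U ↔ y ∈ U := by
  rcases tie (φ := φ) x with ⟨v, hv, hv'⟩ | ⟨e, s, hs, he, rfl⟩
  · rcases tie (φ := φ) y with ⟨w, hw, hw'⟩ | ⟨f, t, ht, hf, rfl⟩
    · rw [hv' U hU, hw' U hU]
      exact vertexRel_mem hU ((h.vertices v w).1 (by rw [← hv, ← hw, hxy]))
    · exact absurd (hxy.symm.trans hv) (h.interior_vertex f hf t ht v)
  · rcases tie (φ := φ) y with ⟨w, hw, hw'⟩ | ⟨f, t, ht, hf, rfl⟩
    · exact absurd (hxy.trans hw) (h.interior_vertex e he s hs w)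
    · by_cases hef : e = f
      · subst hef
        exact pt_mem_iff hU e _ _
      · exact absurd hxy (h.interior_interior e f hef he hf s hs t ht)

theorem isConnected_range_iff [T2Space P] {G : FGraph} {φ : C(G.Space, P)} (h : IsDegEmb G φ) :
    IsConnected (range φ) ↔ ConnectedSpace G.Space := by
  constructor
  · intro hc
    have hne : Nonempty G.Space := by
      obtain ⟨_, x, _⟩ := hc.nonempty
      exact ⟨x⟩
    have hpre : PreconnectedSpace G.Space := by
      rw [preconnectedSpace_iff_clopen]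
      intro U hU
      have hA : IsClosed (φ '' U) := (hU.isClosed.isCompact.image φ.continuous).isClosed
      have hB : IsClosed (φ '' Uᶜ) := (hU.compl.isClosed.isCompact.image φ.continuous).isClosed
      have hcov : range φ ⊆ φ '' U ∪ φ '' Uᶜ := by
        rintro _ ⟨x, rfl⟩
        by_cases hx : x ∈ U
        · exact Or.inl ⟨x, hx, rfl⟩
        · exact Or.inr ⟨x, hx, rfl⟩
      have hdis : range φ ∩ (φ '' U ∩ φ '' Uᶜ) = ∅ := by
        rw [eq_empty_iff_forall_notMem]
        rintro _ ⟨_, ⟨x, hx, rfl⟩, ⟨y, hy, hxy⟩⟩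
        exact hy ((same h hxy hU).2 hx)
      rcases isPreconnected_closed_iff.1 hc.isPreconnected (φ '' U) (φ '' Uᶜ) hA hB hcov with h1
      by_cases hU1 : U = ∅
      · exact Or.inl hU1
      · by_cases hU2 : Uᶜ = ∅
        · exact Or.inr (compl_empty_iff.1 hU2)
        · exfalso
          obtain ⟨x, hx⟩ := nonempty_iff_ne_empty.2 hU1
          obtain ⟨y, hy⟩ := nonempty_iff_ne_empty.2 hU2
          obtain ⟨z, hz⟩ := h1 ⟨φ x, ⟨x, rfl⟩, ⟨x, hx, rfl⟩⟩ ⟨φ y, ⟨y, rfl⟩, ⟨y, hy, rfl⟩⟩
          rw [hdis] at hz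
          exact hz
    exact { toPreconnectedSpace := hpre, toNonempty := hne }
  · intro hc
    exact isConnected_range φ.continuous

theorem isClopen_conn : IsClopen {a : N | IsConnected a.image} := by
  have key : ∀ G : FGraph, (∀ φ : DegEmb G, IsConnected (range φ.1)) ∨
      ∀ φ : DegEmb G, ¬ IsConnected (range φ.1) := by
    intro G
    by_cases hG : ConnectedSpace G.Space
    · exact Or.inl fun φ => (isConnected_range_iff φ.2).2 hG
    · exact Or.inr fun φ hφ => hG ((isConnected_range_iff φ.2).1 hφ)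
  have hq : IsQuotientMap (Quotient.mk (Setoid.ker img)) := isQuotientMap_quotient_mk'
  have hopen : ∀ Q : Set Plane → Prop, (∀ G : FGraph, (∀ φ : DegEmb G, Q (range φ.1)) ∨
      ∀ φ : DegEmb G, ¬ Q (range φ.1)) → IsOpen {a : N | Q a.image} := by
    intro Q hQ
    refine hq.isOpen_preimage.1 ?_
    rw [isOpen_sigma_iff]
    intro G
    rcases hQ G with h | h
    · convert isOpen_univ
      rw [eq_univ_iff_forall]
      exact fun φ => h φ
    · convert isOpen_empty
      rw [eq_empty_iff_forall_notMem]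
      exact fun φ => h φ
  constructor
  · rw [← isOpen_compl_iff]
    exact hopen (fun S => ¬ IsConnected S) fun G => (key G).symm.imp id fun h φ => not_not.2 (h φ)
  · exact hopen IsConnected key

end Q178.PG
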