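import Pool.Agent.Q178.PG.Inv

/-!
# Graphs all of whose edges are loops, drawn with circles
-/

open Set Topology

namespace Q178.PG

/-- The identification of the complex numbers with the plane. -/
noncomputable def L : ℂ ≃ₗᵢ[ℝ] Plane := Complex.orthonormalBasisOneI.repr

/-- The loop. -/
noncomputable def circ (c u : ℂ) (t : ℝ) : ℂ := c + u * Complex.exp (2 * Real.pi * t * Complex.I)

theorem continuous_circ (c u : ℂ) : Continuous (circ c u) := by
  unfold circ
  fun_prop

theorem circ_zero (c u : ℂ) : circ c u 0 = c + u := by simp [circ]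

theorem circ_one (c u : ℂ) : circ c u 1 = c + u := by
  simp [circ, Complex.exp_two_pi_mul_I]

theorem norm_circ_sub (c u : ℂ) (t : ℝ) : ‖circ c u t - c‖ = ‖u‖ := by
  have h : (2 * Real.pi * t * Complex.I : ℂ) = ((2 * Real.pi * t : ℝ) : ℂ) * Complex.I := by
    push_cast; ring
  simp only [circ, add_sub_cancel_left, norm_mul, h, Complex.norm_exp_ofReal_mul_I, mul_one]

theorem circ_inj {c u : ℂ} (hu : u ≠ 0) {s t : ℝ} (hs : s ∈ Icc (0 : ℝ) 1) (ht : t ∈ Icc (0 : ℝ) 1)
    (h : circ c u s = circ c u t) : s = t ∨ (s = 0 ∧ t = 1) ∨ (s = 1 ∧ t = 0) := by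
  have h1 : Complex.exp (2 * Real.pi * s * Complex.I) = Complex.exp (2 * Real.pi * t * Complex.I) :=
    mul_left_cancel₀ hu (add_left_cancel h)
  obtain ⟨n, hn⟩ := Complex.exp_eq_exp_iff_exists_int.1 h1
  have h2 : (2 * Real.pi * Complex.I : ℂ) ≠ 0 := by
    simp [Real.pi_ne_zero, Complex.I_ne_zero]
  have h3 : (s : ℂ) = t + n := by
    apply mul_left_cancel₀ h2
    linear_combination hn
  have h4 : s = t + n := by exact_mod_cast h3
  have h5 : (-1 : ℝ) ≤ n := by linarith [hs.1, ht.2]
  have h6 : (n : ℝ) ≤ 1 := by linarith [hs.2, ht.1]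
  have h7 : (-1 : ℤ) ≤ n := by exact_mod_cast h5
  have h8 : n ≤ 1 := by exact_mod_cast h6
  have h9 : n = -1 ∨ n = 0 ∨ n = 1 := by omega
  rcases h9 with rfl | rfl | rfl
  · right; left
    push_cast at h4
    constructor <;> linarith [hs.1, hs.2, ht.1, ht.2]
  · left
    simpa using h4
  · right; right
    push_cast at h4
    constructor <;> linarith [hs.1, hs.2, ht.1, ht.2]

theorem circ_surj {c u z : ℂ} (hz : ‖z - c‖ = ‖u‖) : ∃ t ∈ Icc (0 : ℝ) 1, circ c u t = z := by
  by_cases hu : u = 0
  · subst hu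
    refine ⟨0, ⟨le_rfl, zero_le_one⟩, ?_⟩
    rw [norm_zero, norm_eq_zero, sub_eq_zero] at hz
    rw [circ_zero, hz, add_zero]
  · have hn : ‖(z - c) / u‖ = 1 := by
      rw [norm_div, hz, div_self (norm_ne_zero_iff.2 hu)]
    have h1 : Complex.exp (((z - c) / u).arg * Complex.I) = (z - c) / u := by
      have := Complex.norm_mul_exp_arg_mul_I ((z - c) / u)
      rwa [hn, Complex.ofReal_one, one_mul] at this
    set a := ((z - c) / u).arg with ha
    have h2 : -Real.pi < a := Complex.neg_pi_lt_arg _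
    have h3 : a ≤ Real.pi := Complex.arg_le_pi _
    have hpi := Real.pi_pos
    by_cases h0 : 0 ≤ a
    · refine ⟨a / (2 * Real.pi), ⟨by positivity, ?_⟩, ?_⟩
      · rw [div_le_one (by positivity)]
        linarith
      · unfold circ
        have h4 : (2 * Real.pi * ((a / (2 * Real.pi) : ℝ) : ℂ) * Complex.I : ℂ) = a * Complex.I := by
          have : (Real.pi : ℂ) ≠ 0 := by exact_mod_cast Real.pi_ne_zero
          push_cast
          field_simp
        rw [h4, h1, mul_div_cancel₀ _ hu]
        ring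
    · refine ⟨a / (2 * Real.pi) + 1, ⟨?_, ?_⟩, ?_⟩
      · have : -1 ≤ a / (2 * Real.pi) := by
          rw [le_div_iff₀ (by positivity)]
          linarith
        linarith
      · have : a / (2 * Real.pi) ≤ 0 := div_nonpos_of_nonpos_of_nonneg (by linarith) (by positivity)
        linarith
      · unfold circ
        have h4 : (2 * Real.pi * ((a / (2 * Real.pi) + 1 : ℝ) : ℂ) * Complex.I : ℂ) =
            a * Complex.I + 2 * Real.pi * Complex.I := by
          have : (Real.pi : ℂ) ≠ 0 := by exact_mod_cast Real.pi_ne_zero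
          push_cast
          field_simp
        rw [h4, Complex.exp_add, Complex.exp_two_pi_mul_I, mul_one, h1, mul_div_cancel₀ _ hu]
        ring

/-- Drawing a graph with only loops by circles. -/
theorem exists_drawing (G : FGraph) (hloop : ∀ e, G.src e = G.tgt e) (p : Fin G.nV → ℂ)
    (c u : Fin G.nE → ℂ)
    (hp : Function.Injective p) (hu : ∀ e, u e ≠ 0) (hpu : ∀ e, p (G.src e) = c e + u e)
    (h1 : ∀ e v, ‖p v - c e‖ = ‖u e‖ → v = G.src e)
    (h2 : ∀ e f z, e ≠ f → ‖z - c e‖ = ‖u e‖ → ‖z - c f‖ = ‖u f‖ → z = p (G.src e)) :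
    ∃ φ : DegEmb G,
      range φ.1 = L '' (range p ∪ ⋃ e, Metric.sphere (c e) ‖u e‖) := by
  let g : Fin G.nV ⊕ (Fin G.nE × unitInterval) → Plane :=
    Sum.elim (fun v => L (p v)) (fun q => L (circ (c q.1) (u q.1) q.2))
  have hg : Continuous g := by
    refine Continuous.sumElim continuous_of_discreteTopology ?_
    rw [continuous_prod_of_discrete_left]
    intro e
    exact L.continuous.comp ((continuous_circ (c e) (u e)).comp continuous_subtype_val)
  have hgl : ∀ a b, G.Glue a b → g a = g b := by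
    rintro _ _ (e | e)
    · show L (circ (c e) (u e) ((0 : unitInterval) : ℝ)) = L (p (G.src e))
      rw [hpu]
      congr 1
      exact circ_zero _ _
    · show L (circ (c e) (u e) ((1 : unitInterval) : ℝ)) = L (p (G.tgt e))
      rw [← hloop, hpu]
      congr 1
      exact circ_one _ _
  let φ : C(G.Space, Plane) := ⟨Quot.lift g hgl, continuous_quot_lift hgl hg⟩
  have hv : ∀ v, φ (G.vtx v) = L (p v) := fun v => rfl
  have he : ∀ e t, φ (G.pt e t) = L (circ (c e) (u e) t) := fun e t => rfl
  have hnorm : ∀ e (t : unitInterval), ‖circ (c e) (u e) t - c e‖ = ‖u e‖ :=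
    fun e t => norm_circ_sub _ _ _
  have hvt : ∀ e (t : unitInterval), t ∈ Ioo (0 : unitInterval) 1 → circ (c e) (u e) t ≠ p (G.src e) := by
    intro e t ht h
    rw [hpu, ← circ_zero] at h
    rcases circ_inj (hu e) t.2 ⟨le_rfl, zero_le_one⟩ h with h | h | h
    · exact ht.1.ne' (Subtype.ext h)
    · exact ht.1.ne' (Subtype.ext h.1)
    · exact ht.2.ne (Subtype.ext h.1)
  have hnc : ∀ e, ¬ ConstOn G φ e := by
    intro e hc
    have h := hc _ ⟨⟨1 / 2, by norm_num, by norm_num⟩, rfl⟩ _ ⟨0, rfl⟩
    rw [he, he] at h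
    rcases circ_inj (hu e) (by norm_num) (by norm_num) (L.injective h) with h | h | h
    · norm_num at h
    · norm_num at h
    · norm_num at h
  have hinj : ∀ e s t, φ (G.pt e s) = φ (G.pt e t) → G.pt e s = G.pt e t := by
    intro e s t h
    rw [he, he] at h
    have hst : G.src e = G.tgt e := hloop e
    rcases circ_inj (hu e) s.2 t.2 (L.injective h) with h | ⟨h, h'⟩ | ⟨h, h'⟩
    · rw [Subtype.ext h]
    · have hs : s = 0 := Subtype.ext h
      have ht : t = 1 := Subtype.ext h'
      rw [hs, ht, pt_zero, pt_one, hst]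
    · have hs : s = 1 := Subtype.ext h
      have ht : t = 0 := Subtype.ext h'
      rw [hs, ht, pt_zero, pt_one, hst]
  have hdeg : IsDegEmb G φ := by
    refine ⟨fun e => Or.inl ?_, ?_, ?_, ?_, ?_⟩
    · have hcomp : CompactSpace (G.edge e) := isCompact_iff_compactSpace.1 (isCompact_range (continuous_pt G e))
      refine (Continuous.isClosedEmbedding ?_ ?_).isEmbedding
      · exact φ.continuous.comp continuous_subtype_val
      · rintro ⟨_, s, rfl⟩ ⟨_, t, rfl⟩ h
        exact Subtype.ext (hinj e s t h)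
    · intro v w
      rw [hv, hv]
      constructor
      · intro h
        rw [hp (L.injective h)]
        exact Relation.EqvGen.refl _
      · intro h
        have : ∀ v w, VertexRel G φ v w → v = w := by
          intro v w h
          induction h with
          | rel x y hxy =>
            obtain ⟨e, h, _, _⟩ := hxy
            exact absurd h (hnc e)
          | refl x => rfl
          | symm x y _ ih => exact ih.symm
          | trans x y z _ _ ih1 ih2 => exact ih1.trans ih2
        rw [this v w h]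
    · intro e _ t ht v h
      rw [he, hv] at h
      have h3 := L.injective h
      have h4 : v = G.src e := h1 e v (by rw [← h3]; exact hnorm e t)
      rw [h4] at h3
      exact hvt e t ht h3
    · intro e f hef _ _ s hs t ht h
      rw [he, he] at h
      have h3 := L.injective h
      exact hvt e s hs (h2 e f _ hef (hnorm e s) (by rw [h3]; exact hnorm f t))
    · intro k v e _ _ _ hc
      exact hnc _ (hc 0)
  refine ⟨⟨φ, hdeg⟩, ?_⟩
  ext y
  constructor
  · rintro ⟨x, rfl⟩
    rcases space_cases G x with ⟨v, rfl⟩ | ⟨e, t, rfl⟩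
    · exact ⟨p v, Or.inl ⟨v, rfl⟩, rfl⟩
    · refine ⟨circ (c e) (u e) t, Or.inr (mem_iUnion.2 ⟨e, ?_⟩), rfl⟩
      rw [mem_sphere_iff_norm]
      exact hnorm e t
  · rintro ⟨z, hz | hz, rfl⟩
    · obtain ⟨v, rfl⟩ := hz
      exact ⟨G.vtx v, rfl⟩
    · obtain ⟨e, hz⟩ := mem_iUnion.1 hz
      obtain ⟨t, ht, rfl⟩ := circ_surj (mem_sphere_iff_norm.1 hz)
      exact ⟨G.pt e ⟨t, ht⟩, rfl⟩

end Q178.PG
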