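import Pool.Agent.Q178.PG.Faces

/-!
# The rose
-/

open Set Topology

namespace Q178.PG

/-- circles through the origin with centres on the real axis -/
def circA (n : ℕ) : Set ℂ := {z | ∃ k : ℕ, k < n ∧ ‖z - ((k : ℂ) + 1)‖ = (k : ℝ) + 1}

theorem nested {z : ℂ} {a b : ℝ} (hab : a ≤ b) (h : ‖z - (a : ℂ)‖ ≤ a) : ‖z - (b : ℂ)‖ ≤ b := by
  have h1 : z - (b : ℂ) = (z - (a : ℂ)) + ((a - b : ℝ) : ℂ) := by push_cast; ring
  rw [h1]
  refine (norm_add_le _ _).trans ?_
  rw [Complex.norm_real, Real.norm_eq_abs, abs_of_nonpos (by linarith)]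
  linarith

theorem nested_lt {z : ℂ} {a b : ℝ} (hab : a ≤ b) (h : ‖z - (a : ℂ)‖ < a) : ‖z - (b : ℂ)‖ < b := by
  have h1 : z - (b : ℂ) = (z - (a : ℂ)) + ((a - b : ℝ) : ℂ) := by push_cast; ring
  rw [h1]
  refine (norm_add_le _ _).trans_lt ?_
  rw [Complex.norm_real, Real.norm_eq_abs, abs_of_nonpos (by linarith)]
  linarith

theorem norm_sub_sq (z : ℂ) (a : ℝ) : ‖z - (a : ℂ)‖ ^ 2 = Complex.normSq z - 2 * a * z.re + a ^ 2 := by
  rw [← Complex.normSq_eq_norm_sq, Complex.normSq_apply, Complex.normSq_apply]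
  simp only [Complex.sub_re, Complex.ofReal_re, Complex.sub_im, Complex.ofReal_im, sub_zero]
  ring

/-- Crescents are connected. -/
theorem crescent (a b : ℝ) (ha : 0 ≤ a) (hb : 0 < b) :
    IsPreconnected {z : ℂ | a < ‖z - (a : ℂ)‖ ∧ ‖z - (b : ℂ)‖ < b} := by
  have hset : {z : ℂ | a < ‖z - (a : ℂ)‖ ∧ ‖z - (b : ℂ)‖ < b} =
      (fun w : ℂ => w⁻¹) '' {w : ℂ | 1 < 2 * b * w.re ∧ 2 * a * w.re < 1} := by
    ext z
    have key : ∀ z : ℂ, z ≠ 0 → ((a < ‖z - (a : ℂ)‖ ∧ ‖z - (b : ℂ)‖ < b) ↔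
        (1 < 2 * b * (z⁻¹).re ∧ 2 * a * (z⁻¹).re < 1)) := by
      intro z hz
      have hn : 0 < Complex.normSq z := Complex.normSq_pos.2 hz
      have h1 : a < ‖z - (a : ℂ)‖ ↔ 2 * a * (z⁻¹).re < 1 := by
        rw [Complex.inv_re, ← abs_of_nonneg ha, ← abs_norm, ← sq_lt_sq, abs_of_nonneg ha, norm_sub_sq,
          ← mul_div_assoc, div_lt_one hn]
        constructor <;> intro h <;> linarith
      have h2 : ‖z - (b : ℂ)‖ < b ↔ 1 < 2 * b * (z⁻¹).re := by
        rw [Complex.inv_re, ← abs_of_pos hb, ← abs_norm, ← sq_lt_sq, abs_of_pos hb, norm_sub_sq,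
          ← mul_div_assoc, one_lt_div hn]
        constructor <;> intro h <;> linarith
      rw [h1, h2]
      tauto
    constructor
    · rintro hz
      have hz0 : z ≠ 0 := by
        rintro rfl
        have := hz.2
        rw [zero_sub, norm_neg, Complex.norm_real, Real.norm_of_nonneg hb.le] at this
        exact lt_irrefl _ this
      exact ⟨z⁻¹, (key z hz0).1 hz, inv_inv z⟩
    · rintro ⟨w, hw, rfl⟩
      have hw0 : w ≠ 0 := by
        rintro rfl
        have := hw.1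
        norm_num at this
      have hw' : w⁻¹ ≠ 0 := inv_ne_zero hw0
      refine (key w⁻¹ hw').2 ?_
      rwa [inv_inv]
  rw [hset]
  apply IsPreconnected.image
  · apply Convex.isPreconnected
    have h1 : Convex ℝ {w : ℂ | 1 < 2 * b * w.re} := by
      have : {w : ℂ | 1 < 2 * b * w.re} = {w : ℂ | 1 / (2 * b) < w.re} := by
        ext w
        simp only [mem_ofPred_eq]
        rw [div_lt_iff₀' (by positivity)]
      rw [this]
      exact convex_halfSpace_re_gt _
    have h2 : Convex ℝ {w : ℂ | 2 * a * w.re < 1} := by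
      rcases eq_or_lt_of_le ha with h | h
      · rw [← h]
        simp only [mul_zero, zero_mul, zero_lt_one]
        exact convex_univ
      · have : {w : ℂ | 2 * a * w.re < 1} = {w : ℂ | w.re < 1 / (2 * a)} := by
          ext w
          simp only [mem_ofPred_eq]
          rw [lt_div_iff₀' (by positivity)]
        rw [this]
        exact convex_halfSpace_re_lt _
    exact h1.inter h2
  · intro w hw
    refine (continuousAt_inv₀ ?_).continuousWithinAt
    rintro rfl
    have := hw.1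
    norm_num at this

theorem outside (a : ℝ) : IsPreconnected {z : ℂ | a < ‖z - (a : ℂ)‖} := by
  have h1 : {z : ℂ | a < ‖z - (a : ℂ)‖} = (fun w : ℂ => w + a) '' {w : ℂ | ‖w‖ ∈ Ioi a} := by
    ext z
    constructor
    · intro hz
      exact ⟨z - a, hz, sub_add_cancel _ _⟩
    · rintro ⟨w, hw, rfl⟩
      show a < ‖w + a - a‖
      rwa [add_sub_cancel_right]
  rw [h1]
  exact (radial ordConnected_Ioi).image _ (by fun_prop)

/-- the faces of the rose -/
def roseFace (n : ℕ) (k : Fin (n + 1)) : Set ℂ :=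
  {z | ((k : ℕ) : ℝ) < ‖z - (((k : ℕ) : ℝ) : ℂ)‖ ∧
    ((k : ℕ) < n → ‖z - (((k : ℕ) + 1 : ℝ) : ℂ)‖ < ((k : ℕ) : ℝ) + 1)}

theorem roseFace_open (n : ℕ) (k : Fin (n + 1)) : IsOpen (roseFace n k) := by
  have h1 : IsOpen {z : ℂ | ((k : ℕ) : ℝ) < ‖z - (((k : ℕ) : ℝ) : ℂ)‖} :=
    isOpen_lt continuous_const (by fun_prop)
  have h2 : IsOpen {z : ℂ | (k : ℕ) < n → ‖z - (((k : ℕ) + 1 : ℝ) : ℂ)‖ < ((k : ℕ) : ℝ) + 1} := by
    by_cases hk : (k : ℕ) < n
    · simp only [hk, true_imp_iff]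
      exact isOpen_lt (by fun_prop) continuous_const
    · simp only [hk, false_imp_iff]
      exact isOpen_univ
  exact h1.inter h2

theorem roseFace_conn (n : ℕ) (k : Fin (n + 1)) : IsPreconnected (roseFace n k) := by
  by_cases hk : (k : ℕ) < n
  · have := crescent ((k : ℕ) : ℝ) (((k : ℕ) : ℝ) + 1) (by positivity) (by positivity)
    convert this using 1
    ext z
    simp only [roseFace, hk, true_imp_iff]
  · have := outside ((k : ℕ) : ℝ)
    convert this using 1
    ext z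
    simp only [roseFace, hk, false_imp_iff, and_true]

theorem roseFace_disj (n : ℕ) (j k : Fin (n + 1)) (z : ℂ) (hj : z ∈ roseFace n j)
    (hk : z ∈ roseFace n k) : j = k := by
  by_contra hjk
  have key : ∀ j k : Fin (n + 1), j < k → z ∈ roseFace n j → z ∈ roseFace n k → False := by
    intro j k h hj hk
    have hj' : (j : ℕ) < n := lt_of_lt_of_le h (Nat.le_of_lt_succ k.2)
    have h5 := hj.2 hj'
    have h6 : ((j : ℕ) : ℝ) + 1 ≤ (k : ℕ) := by exact_mod_cast h
    have h7 := nested h6 (le_of_lt h5)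
    exact absurd hk.1 (not_lt.2 h7)
  rcases lt_or_gt_of_ne hjk with h | h
  · exact key j k h hj hk
  · exact key k j h hk hj

theorem roseFace_cover (n : ℕ) (hn : 0 < n) (z : ℂ) : z ∉ circA n ↔ ∃ k, z ∈ roseFace n k := by
  classical
  constructor
  · intro hz
    have hns : ∀ k : ℕ, k < n → ‖z - ((k + 1 : ℝ) : ℂ)‖ ≠ (k : ℝ) + 1 := by
      intro k hk h
      exact hz ⟨k, hk, by push_cast at h; exact h⟩
    by_cases hex : ∃ k : ℕ, k < n ∧ ‖z - ((k + 1 : ℝ) : ℂ)‖ < (k : ℝ) + 1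
    · obtain ⟨hk1, hk2⟩ := Nat.find_spec hex
      have hmin := fun m (hm : m < Nat.find hex) => Nat.find_min hex hm
      generalize Nat.find hex = k at hk1 hk2 hmin
      refine ⟨⟨k, by omega⟩, ?_, fun _ => hk2⟩
      show (k : ℝ) < ‖z - ((k : ℝ) : ℂ)‖
      rcases Nat.eq_zero_or_pos k with rfl | hpos
      · simp only [Nat.cast_zero, Complex.ofReal_zero, sub_zero, norm_pos_iff]
        rintro rfl
        simp at hk2
      · obtain ⟨m, rfl⟩ := Nat.exists_eq_succ_of_ne_zero hpos.ne'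
        have h1 := hmin m (Nat.lt_succ_self m)
        have h2 : ¬ ‖z - ((m + 1 : ℝ) : ℂ)‖ < (m : ℝ) + 1 := fun h => h1 ⟨by omega, h⟩
        have h3 := lt_of_le_of_ne (not_lt.1 h2) (hns m (by omega)).symm
        push_cast at h3 ⊢
        exact h3
    · refine ⟨Fin.last n, ?_, fun h => absurd h (lt_irrefl _)⟩
      obtain ⟨m, rfl⟩ := Nat.exists_eq_succ_of_ne_zero hn.ne'
      have h2 : ¬ ‖z - ((m + 1 : ℝ) : ℂ)‖ < (m : ℝ) + 1 := fun h => hex ⟨m, by omega, h⟩
      have h3 := lt_of_le_of_ne (not_lt.1 h2) (hns m (by omega)).symm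
      show ((m + 1 : ℕ) : ℝ) < ‖z - (((m + 1 : ℕ) : ℝ) : ℂ)‖
      push_cast at h3 ⊢
      exact h3
  · rintro ⟨k, h1, h2⟩ ⟨m, hm, hm'⟩
    have hm'' : ‖z - ((m + 1 : ℝ) : ℂ)‖ = (m : ℝ) + 1 := by push_cast; exact hm'
    by_cases hk : (k : ℕ) ≤ m
    · have h3 := nested_lt (by exact_mod_cast Nat.succ_le_succ hk : ((k : ℕ) : ℝ) + 1 ≤ (m : ℝ) + 1)
        (h2 (lt_of_le_of_lt hk hm))
      exact h3.ne hm''
    · have h3 := nested (by exact_mod_cast not_le.1 hk : (m : ℝ) + 1 ≤ ((k : ℕ) : ℝ)) hm''.le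
      exact absurd h1 (not_lt.2 h3)

theorem roseFace_nonempty (n : ℕ) (k : Fin (n + 1)) : (roseFace n k).Nonempty := by
  refine ⟨((2 * (k : ℕ) + 1 : ℝ) : ℂ), ?_, fun _ => ?_⟩
  · rw [← Complex.ofReal_sub, Complex.norm_real, Real.norm_of_nonneg]
    · linarith
    · have : (0 : ℝ) ≤ ((k : ℕ) : ℝ) := by positivity
      linarith
  · rw [← Complex.ofReal_sub, Complex.norm_real, Real.norm_of_nonneg]
    · linarith
    · have : (0 : ℝ) ≤ ((k : ℕ) : ℝ) := by positivity
      linarith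

theorem faces_A (n : ℕ) (hn : 0 < n) :
    {C ∈ faces (L '' circA n) | Bornology.IsBounded C}.encard = n := by
  refine count_faces' (roseFace n) (roseFace_open n) (roseFace_conn n) (roseFace_nonempty n)
    (roseFace_disj n) (roseFace_cover n hn) ?_ ?_
  · intro k hk
    have hk' : (k : ℕ) < n := by
      rcases lt_or_eq_of_le (Nat.le_of_lt_succ k.2) with h | h
      · exact h
      · exact absurd (Fin.ext h) hk
    refine (Metric.isBounded_ball (x := (((k : ℕ) + 1 : ℝ) : ℂ)) (r := (k : ℕ) + 1)).subset ?_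
    rintro z ⟨_, h⟩
    rw [mem_ball_iff_norm]
    exact h hk'
  · intro h
    obtain ⟨C, hC⟩ := isBounded_iff_forall_norm_le.1 h
    have h1 := hC ((max C (2 * n) + 1 : ℝ) : ℂ) (by
      refine ⟨?_, fun h' => absurd h' (lt_irrefl _)⟩
      have : (2 * n : ℝ) ≤ max C (2 * n) := le_max_right _ _
      rw [Fin.val_last, ← Complex.ofReal_sub, Complex.norm_real, Real.norm_of_nonneg (by linarith)]
      linarith)
    rw [Complex.norm_real, Real.norm_of_nonneg (by positivity)] at h1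
    linarith [le_max_left C (2 * n)]

end Q178.PG
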